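import Mathlib

namespace Pool.Agent.MP_a9d3bd_q

open MvPolynomial

variable {k : Type} [Field k] {N : ℕ}

/-- Integral closed subschemes of dimension `j` of the zero locus `V(S)` in projective space:
homogeneous primes `P` containing `S` whose affine cone has dimension `j + 1`. -/
def Var (S : Set (MvPolynomial (Fin N) k)) (j : ℕ) : Type :=
  {P : PrimeSpectrum (MvPolynomial (Fin N) k) // S ⊆ P.asIdeal ∧
    (∀ f ∈ P.asIdeal, ∀ d, homogeneousComponent d f ∈ P.asIdeal) ∧
    Algebra.trdeg k (MvPolynomial (Fin N) k ⧸ P.asIdeal) = (j + 1 : ℕ)}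

/-- The length of `R_C / (W, F) R_C`: the order of vanishing of `F` on `V(W)` along `V(C)`. -/
noncomputable def len {R : Type} [CommRing R] (C : PrimeSpectrum R) (W : Ideal R) (F : R) : ℕ∞ :=
  Module.length (Localization.AtPrime C.asIdeal) (Localization.AtPrime C.asIdeal ⧸
    (W ⊔ Ideal.span {F}).map (algebraMap R (Localization.AtPrime C.asIdeal)))

/-- The span of the divisors of rational functions `F / G` on subvarieties of dimension `j + 1`. -/
noncomputable def RatEq (S : Set (MvPolynomial (Fin N) k)) (j : ℕ) : Submodule ℚ (Var S j →₀ ℚ) :=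
  Submodule.span ℚ {z | ∃ (W : Var S (j + 1)) (d : ℕ) (F G : MvPolynomial (Fin N) k),
    F.IsHomogeneous d ∧ G.IsHomogeneous d ∧ F ∉ W.1.asIdeal ∧ G ∉ W.1.asIdeal ∧
    ∀ C : Var S j, z C = ((len C.1 W.1.asIdeal F).toNat : ℚ) - (len C.1 W.1.asIdeal G).toNat}

/-- The Chow group of `j`-cycles on `V(S)` with rational coefficients. -/
abbrev CH (S : Set (MvPolynomial (Fin N) k)) (j : ℕ) : Type := (Var S j →₀ ℚ) ⧸ RatEq S j

/-- The form `∑ A a b * x a ^ q * x b`. -/
noncomputable def frobForm (q : ℕ) (A : Matrix (Fin N) (Fin N) k) : MvPolynomial (Fin N) k :=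
  ∑ a, ∑ b, C (A a b) * X a ^ q * X b

end Pool.Agent.MP_a9d3bd_q
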