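import Pool.Agent.MP_a9d3bd_q.DEG

namespace Pool.Agent.MP_a9d3bd_q

open MvPolynomial IntermediateField

variable {k σ : Type} [Field k] [Fintype σ] {G : ℕ → MvPolynomial σ k} {d : ℕ → ℕ} {r : ℕ}
  {Φ : Raw k σ}

theorem exists_point (hG : ∀ i < r, (G i).IsHomogeneous (d i)) (hd : ∀ i, d i ≠ 0)
    (hr : r < Fintype.card σ) :
    ∃ (E : Type) (_ : Field E) (_ : Algebra k E) (y : σ → E), FF k E 0 ∧ y ≠ 0 ∧
      On (lev G r 0) y := by
  by_contra hno
  have hfn := fun m (hm : m ≤ r) => isFn_gch hG (isFn_deg 0 (lev G r 0)) hm (zero_add m).symm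
  have key : ∀ m ≤ r, ∀ (E : Type) [Field E] [Algebra k E], FF k E m → ∀ y : σ → E, y ≠ 0 →
      On (lev G r m) y → gch G d r (deg k σ 0) m E y = 0 := by
    intro m
    induction m with
    | zero => exact fun _ E _ _ hE y hy hS => absurd ⟨E, _, _, y, hE, hy, hS⟩ hno
    | succ m ih =>
      intro hm E _ _ hE y _ _
      have h := (hfn m (by omega)).pre
      rw [gch, gys_congr (homog_lev hG _) (hG m hm) h (h.comb h 0 0) (fun K _ _ hK z hz hS => by
        rw [ih (by omega) K hK z hz (by rwa [lev_succ G hm])]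
        simp [comb]) hE, gys_comb _ _ _ h h 0 0 hE]
      simp
  obtain ⟨Ω, _, _, T, hΩ, -, hT⟩ := exists_indet k (Fin r)
  rw [Fintype.card_fin] at hΩ
  obtain ⟨e⟩ : Nonempty (Option (Fin r) ↪ σ) :=
    Function.Embedding.nonempty_of_card_le (by simpa using hr)
  let y : σ → Ω := Function.extend e (oext T 1) 0
  have hy : ∀ o, y (e o) = oext T 1 o := e.injective.extend_apply _ _
  have hy0 : y ≠ 0 := fun h => one_ne_zero ((hy none).symm.trans (congrFun h _))
  have hS : On (lev G r r) y := by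
    rw [lev_top]
    exact fun _ h => h.elim
  have hk : kf k y = ⊤ := by
    rw [eq_top_iff, ← hT, af_le_iff]
    intro i
    simpa [hy, oext] using div_mem_kf (k := k) y (e (some i)) (e none)
  have h1 := key r le_rfl Ω hΩ y hy0 hS
  rw [gch_deg hG 0 le_rfl (zero_add r).symm hΩ hy0 hS] at h1
  exact mul_ne_zero (Finset.prod_ne_zero_iff.2 fun i _ => Nat.cast_ne_zero.2 (hd i))
    (deg_pos hΩ hy0 (nd_of_top hk)).ne' h1

end Pool.Agent.MP_a9d3bd_q
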