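import Pool.Agent.MP_a9d3bd_q.ROW
import Pool.Agent.MP_a9d3bd_q.V3

namespace Pool.Agent.MP_a9d3bd_q

open MvPolynomial IntermediateField

theorem ROWC_roots {k E J : Type} [Field k] [Field E] [Algebra k E] (hE : FF k E 0) [Finite J]
    (z : J → E) (n : J → ℕ) (hn : ∀ j, 0 < n j) :
    ∃ (κ : Type) (_ : Field κ) (_ : Algebra k κ) (ψ : E →ₐ[k] κ) (y : J → κ),
      FF k κ 0 ∧ ∀ j, y j ^ n j = ψ (z j) := by
  choose y hy using fun j =>
    IsAlgClosed.exists_pow_nat_eq (algebraMap E (AlgebraicClosure E) (z j)) (hn j)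
  have : FiniteDimensional E (adjoin E (Set.range y)) :=
    finiteDimensional_adjoin fun x _ => Algebra.IsIntegral.isIntegral x
  refine ⟨adjoin E (Set.range y), inferInstance, inferInstance, IsScalarTower.toAlgHom k E _,
    fun j => ⟨y j, subset_adjoin E _ ⟨j, rfl⟩⟩, hE.of_tower (ff_zero_iff.2 this),
    fun j => Subtype.ext (hy j)⟩

theorem rowsC_fam {k : Type} [Field k] {p N r : ℕ} (hp : p.Prime) [CharP k p] (e : Fin r → ℕ)
    (A : Fin r → Matrix (Fin N) (Fin N) k) (h2 : ∑ i, (if e i = 0 then 2 else 3) < N) :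
    RowsC (famG p e A) (famD p e) r := by
  intro E _ _ hE x hx
  obtain ⟨m, φ, f1, f2, f3⟩ := ROW_pack e
  obtain ⟨κ, _, _, ψ, y, hκ, hy⟩ := ROWC_roots hE
    (fun j : Fin r × Fin N => ∑ c, algebraMap k E (A j.1 j.2 c) * x c) (fun j => p ^ e j.1)
    fun j => pow_pos hp.pos _
  let l : Fin r × Bool → Fin N → κ := fun j a =>
    if j.2 then y (j.1, a) else
      ∑ c, ψ (x c) ^ p ^ e j.1 * algebraMap k κ (A j.1 c a) +
        if e j.1 = 0 then ∑ c, algebraMap k κ (A j.1 a c) * ψ (x c) else 0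
  have key := fun (L : Type) [Field L] [Algebra k L] (χ : κ →ₐ[k] L) =>
    ROW_key e A hp (fun a => χ (ψ (x a))) (fun j a => χ (l j a))
      (fun i => by
        have h := congrArg (χ.comp ψ) (hx _ (by rw [lev_famG]; exact ⟨i, rfl⟩))
        rwa [map_zero, comp_aeval_apply, aeval_frobForm] at h)
      (fun i a => by
        simp only [l, Bool.false_eq_true, if_false, map_add, map_sum, map_mul, map_pow,
          AlgHom.commutes, apply_ite χ, map_zero])
      fun i a => by
        simp only [l, if_true]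
        rw [← map_pow, hy (i, a)]
        simp only [map_sum, map_mul, AlgHom.commutes]
  refine ⟨κ, _, _, ψ, m, fun j => l (φ j), hκ, by rw [Fintype.card_fin]; omega,
    fun j => (key κ (AlgHom.id k κ)).1 _, fun L _ _ χ v hv => (key L χ).2 v (fun i => ?_)
      fun i hi => ?_⟩
  · obtain ⟨j, hj⟩ := f2 i
    exact hj ▸ hv j
  · obtain ⟨j, hj⟩ := f3 i hi
    exact hj ▸ hv j

end Pool.Agent.MP_a9d3bd_q
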