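import Pool.Agent.MP_a9d3bd_q.ZM
import Pool.Agent.MP_a9d3bd_q.EXP
import Pool.Agent.MP_a9d3bd_q.ROWC
import Pool.Agent.MP_a9d3bd_q.Final

namespace Pool.Agent.MP_a9d3bd_q

open MvPolynomial IntermediateField

theorem zero_cycles (k : Type) [Field k] (p : ℕ) (hp : p.Prime) [CharP k p] (N r : ℕ)
    (e : Fin r → ℕ) (A : Fin r → Matrix (Fin N) (Fin N) k)
    (h2 : ∑ i, (if e i = 0 then 2 else 3) < N) :
    Module.finrank ℚ (CH (Set.range fun i => frobForm (p ^ e i) (A i)) 0) = 1 := by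
  rw [← lev_famG]
  have hr : r < Fintype.card (Fin N) := by
    have h3 : ∑ _i : Fin r, 1 ≤ ∑ i, (if e i = 0 then 2 else 3) :=
      Finset.sum_le_sum fun i _ => by split_ifs <;> omega
    rw [Finset.sum_const, Finset.card_univ, Fintype.card_fin, smul_eq_mul, mul_one] at h3
    rw [Fintype.card_fin]
    omega
  obtain ⟨E, _, _, y, hE, hy, hon⟩ := exists_point (famG_hom (p := p) e A) (famD_ne e) hr
  have hnd : ND k y := (nd_iff hE y).2 (Nat.le_zero.1 (tr_td_le hE.tr _))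
  exact finrank_ch (homog_lev (famG_hom e A) 0) (isFn_deg 0 _)
    ⟨E, inferInstance, inferInstance, y, hE, hy, hnd, hon, (deg_pos hE hy hnd).ne'⟩
    fun Φ hΦ => pts_equal (famG_hom e A) (famD_ne e) (rowsC_fam hp e A h2) hΦ

end Pool.Agent.MP_a9d3bd_q
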