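import Pool.Agent.MP_a9d3bd_q.ZP
import Pool.Agent.MP_a9d3bd_q.GEN
import Pool.Agent.MP_a9d3bd_q.PP2
import Pool.Agent.MP_a9d3bd_q.V3

namespace Pool.Agent.MP_a9d3bd_q

open MvPolynomial IntermediateField

variable {k : Type} [Field k] {N : ℕ} {G : ℕ → MvPolynomial (Fin N) k} {d : ℕ → ℕ} {r : ℕ}
  {Φ : Raw k (Fin N)}

theorem PTE_pt (hG : ∀ i < r, (G i).IsHomogeneous (d i)) (hd : ∀ i, d i ≠ 0)
    (hΦ : IsFn 0 (lev G r 0) Φ) {x : Fin N → k} (hx : x ≠ 0) (h : RowsP G d r x) :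
    ∃ (E : Type) (_ : Field E) (_ : Algebra k E) (y : Fin N → E) (c : ℚ), FF k E r ∧ y ≠ 0 ∧
      c ≠ 0 ∧ deg k (Fin N) r E y ≠ 0 ∧ gch G d r Φ r E y = Φ k x * c := by
  obtain ⟨m, l, hm, hl, hC⟩ := h
  obtain ⟨i₀, hi⟩ := Function.ne_iff.1 hx
  have hx0 : x i₀ ≠ 0 := hi
  have hr : r + 1 ≤ Module.finrank k (sol l) := by
    have h1 := finrank_sol l
    rw [Fintype.card_fin m] at h1
    omega
  obtain ⟨L, _, _, v, hL, hv0, hv, ht, htop⟩ := exists_generic (sol l) ((mem_sol l _).2 hl) hx0 hr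
  obtain ⟨β, hβ, hβ'⟩ : ∃ β : L, β • v = v ∧ (β = 0 ∨ td k (kf k v) + 1 ≤ r) := by
    rcases ht with h | h
    · exact ⟨0, by rw [h, smul_zero], Or.inl rfl⟩
    · exact ⟨1, one_smul _ _, Or.inr h⟩
  have he : (((1 : L) • fun a => algebraMap k L (x a)) + β • v) =
      (fun a => algebraMap k L (x a)) + v := by rw [one_smul, hβ]
  have hy : ((fun a => algebraMap k L (x a)) + v) ≠ 0 := by
    intro h
    have h1 := congrFun h i₀
    rw [Pi.add_apply, hv0, add_zero, Pi.zero_apply, map_eq_zero] at h1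
    exact hx0 h1
  have hS : On (lev G r r) ((fun a => algebraMap k L (x a)) + v) := by
    rw [lev_top]
    exact fun _ h => h.elim
  have hz := z_pt hG hΦ x i₀ hx0 r le_rfl L hL v 1 β hv0
    (hC L v fun j => hv (l j) fun w hw => (mem_sol l w).1 hw j) (he ▸ hy) (he ▸ hS) hβ'
  rw [he, gch_deg hG 0 le_rfl (zero_add r).symm hL hy hS] at hz
  have h1 : (∏ i ∈ Finset.range r, (d i : ℚ)) ≠ 0 :=
    Finset.prod_ne_zero_iff.2 fun i _ => Nat.cast_ne_zero.2 (hd i)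
  have h2 := (deg_pos hL hy (nd_of_top htop)).ne'
  exact ⟨L, inferInstance, inferInstance, _, _, hL, hy, mul_ne_zero h1 h2, h2, hz⟩

theorem pt_equal (hG : ∀ i < r, (G i).IsHomogeneous (d i)) (hd : ∀ i, d i ≠ 0)
    (hΦ : IsFn 0 (lev G r 0) Φ) {x x' : Fin N → k} (hx : x ≠ 0) (hx' : x' ≠ 0)
    (h : RowsP G d r x) (h' : RowsP G d r x') : Φ k x = Φ k x' := by
  have hΨ := hΦ.comb (isFn_deg 0 (lev G r 0)) 1 (-Φ k x)
  have hv : ∀ z : Fin N → k, comb 1 Φ (-Φ k x) (deg k (Fin N) 0) k z = Φ k z - Φ k x := fun z => by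
    show 1 * Φ k z + -Φ k x * (Module.finrank k k : ℚ) = _
    rw [Module.finrank_self]
    push_cast
    ring
  have hg := isFn_gch (d := d) hG hΨ le_rfl (zero_add r).symm
  rw [lev_top] at hg
  obtain ⟨a, b, hne, hdep⟩ := pp_dep N r hg (isFn_deg r ∅)
  obtain ⟨E, _, _, y, c, hE, hy, -, h1, h2⟩ := PTE_pt hG hd hΨ hx h
  obtain ⟨E', _, _, y', c', hE', hy', h3, -, h4⟩ := PTE_pt hG hd hΨ hx' h'
  have hb : b = 0 := by
    have h5 := hdep E hE y hy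
    rw [h2, hv, sub_self, zero_mul, mul_zero, zero_add] at h5
    exact (mul_eq_zero.1 h5).resolve_right h1
  have h5 := hdep E' hE' y' hy'
  rw [hb, zero_mul, add_zero, h4, hv] at h5
  have h6 := (mul_eq_zero.1 h5).resolve_left (hne.resolve_right (not_not.2 hb))
  exact (sub_eq_zero.1 ((mul_eq_zero.1 h6).resolve_right h3)).symm

end Pool.Agent.MP_a9d3bd_q
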