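import Pool.Agent.MP_a9d3bd_q.PTE
import Pool.Agent.MP_a9d3bd_q.BT

namespace Pool.Agent.MP_a9d3bd_q

open MvPolynomial IntermediateField

variable {k : Type} [Field k] {N : ℕ} {G : ℕ → MvPolynomial (Fin N) k} {d : ℕ → ℕ} {r : ℕ}
  {Φ : Raw k (Fin N)}

theorem ZM_rows {κ K : Type} [Field κ] [Algebra k κ] [Field K] [Algebra k K] (χ : κ →ₐ[k] K)
    (x : Fin N → κ) {m : ℕ} (l : Fin m → Fin N → κ) (hm : m + r + 1 ≤ Fintype.card (Fin N))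
    (hl : ∀ j, ∑ a, l j a * x a = 0)
    (hC : ∀ (L : Type) [Field L] [Algebra k L] (χ : κ →ₐ[k] L) (v : Fin N → L),
      (∀ j, ∑ a, χ (l j a) * v a = 0) → Cone G d r (fun a => χ (x a)) v) :
    RowsP (fun i => MvPolynomial.map (algebraMap k K) (G i)) d r fun a => χ (x a) := by
  refine ⟨m, fun j a => χ (l j a), hm, fun j => ?_, fun L _ _ v hv => ?_⟩
  · simp only [← map_mul, ← map_sum, hl j, map_zero]
  · let _ : Algebra k L := ((algebraMap K L).comp (algebraMap k K)).toAlgebra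
    have : IsScalarTower k K L := IsScalarTower.of_algebraMap_eq fun _ => rfl
    exact (cone_over G d r _ v).2 (hC L ((IsScalarTower.toAlgHom k K L).comp χ) v hv)

theorem pts_equal (hG : ∀ i < r, (G i).IsHomogeneous (d i)) (hd : ∀ i, d i ≠ 0)
    (hR : RowsC G d r) (hΦ : IsFn 0 (lev G r 0) Φ) :
    ∃ c : ℚ, ∀ (E : Type) [Field E] [Algebra k E], FF k E 0 → ∀ y : Fin N → E, y ≠ 0 →
      On (lev G r 0) y → Φ E y = c * deg k (Fin N) 0 E y := by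
  by_cases hex : ∃ (E : Type) (_ : Field E) (_ : Algebra k E) (y : Fin N → E),
      FF k E 0 ∧ y ≠ 0 ∧ On (lev G r 0) y
  swap
  · exact ⟨0, fun E _ _ hE y hy hS => (hex ⟨E, _, _, y, hE, hy, hS⟩).elim⟩
  obtain ⟨E₀, _, _, y₀, hE₀, hy₀, hS₀⟩ := hex
  refine ⟨Φ E₀ y₀ / Module.finrank k E₀, fun E _ _ hE y hy hS => ?_⟩
  obtain ⟨κ₀, _, _, ψ₀, m₀, l₀, hκ₀, hm₀, hl₀, hC₀⟩ := hR E₀ hE₀ y₀ hS₀
  obtain ⟨κ, _, _, ψ, m, l, hκ, hm, hl, hC⟩ := hR E hE y hS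
  obtain ⟨K, _, _, χ₀, χ, hK⟩ := exists_common hκ₀ hκ
  have hΦ' := hΦ.over hK
  rw [← lev_map] at hΦ'
  have h := pt_equal (fun i hi => (hG i hi).map _) hd hΦ'
    ((map_ne_zero_pt (χ₀.comp ψ₀) y₀).2 hy₀) ((map_ne_zero_pt (χ.comp ψ) y).2 hy)
    (ZM_rows χ₀ (fun a => ψ₀ (y₀ a)) l₀ hm₀ hl₀ hC₀) (ZM_rows χ (fun a => ψ (y a)) l hm hl hC)
  rw [over_apply, over_apply, hΦ.pre.ext _ _ hE₀ hK, hΦ.pre.ext _ _ hE hK] at h
  have f : (Module.finrank k E₀ : ℚ) * hdeg (χ₀.comp ψ₀) =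
      Module.finrank k E * hdeg (χ.comp ψ) := by
    exact_mod_cast (finrank_hdeg _).symm.trans (finrank_hdeg _)
  have p1 : (hdeg (χ.comp ψ) : ℚ) ≠ 0 := Nat.cast_ne_zero.2 (hdeg_pos hE hK _).ne'
  have : FiniteDimensional k E₀ := ff_zero_iff.1 hE₀
  have p0 : (Module.finrank k E₀ : ℚ) ≠ 0 := Nat.cast_ne_zero.2 Module.finrank_pos.ne'
  change Φ E y = _ * (Module.finrank k E : ℚ)
  rw [div_mul_eq_mul_div, eq_div_iff p0]
  apply mul_left_cancel₀ p1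
  linear_combination (-(Module.finrank k E₀ : ℚ)) * h + Φ E₀ y₀ * f

end Pool.Agent.MP_a9d3bd_q
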