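import Pool.Agent.MP_a9d3bd_q.Z0
import Pool.Agent.MP_a9d3bd_q.DEG

namespace Pool.Agent.MP_a9d3bd_q

open MvPolynomial IntermediateField

variable {k σ : Type} [Field k] [Fintype σ] {G : ℕ → MvPolynomial σ k} {d : ℕ → ℕ} {r : ℕ}
  {Φ : Raw k σ}

theorem ZP_on (hG : ∀ i < r, (G i).IsHomogeneous (d i)) {E : Type} [Field E] [Algebra k E]
    (O : DV k E) {m : ℕ} (hm : m < r) {y : σ → E} (hS : On (lev G r (m + 1)) y) {h : E}
    (hh : aeval y (G m) = 0 ∨ (aeval y (G m) ≠ 0 ∧ h = aeval y (G m)))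
    (hc : O.ord h ≠ d m * O.mu y) : On (lev G r m) (O.red y) := by
  rw [lev_succ G hm]
  intro F hF
  rcases hF with rfl | hF
  · rcases hh with h0 | ⟨h0, rfl⟩
    · exact O.aeval_red_of_zero (hG m hm) h0
    · exact (O.aeval_red_eq_zero_iff (hG m hm) h0).2 hc
  · exact O.on_red (homog_lev hG _) hS F hF

theorem ZP_red {E : Type} [Field E] [Algebra k E] (O : DV k E) {x v : σ → E} (hx : O.Int x)
    {i : σ} (hi : O.ra x i ≠ 0) (hv : v i = 0) (hv0 : v ≠ 0) (hC : Cone G d r x v) (α β : E) :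
    Cone G d r (O.ra x) (O.red v) ∧ ∃ a b : O.K,
      O.red (α • x + β • v) = a • O.ra x + b • O.red v ∧
        (b ≠ 0 → β ≠ 0 → O.mu (α • x + β • v) = O.ord β + O.mu v) := by
  have hI := O.int_norm v
  have hR := O.ra_norm v
  have hp : pl (O.ra x) (O.ra (O.pi ^ (-O.mu v) • v)) ≠ 0 := by
    rw [hR]
    exact pl_ne_of hi (O.red_eq_zero hv) (O.red_ne hv0)
  have hπ := O.pi_ne
  refine ⟨?_, ?_⟩
  · have h1 := hC.change 0 (O.pi ^ (-O.mu v))
    rw [zero_smul, zero_add] at h1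
    have h2 := h1.ra O hx hI
    rwa [hR] at h2
  · have e : α • x + β • v = α • x + (β * O.pi ^ (O.mu v)) • (O.pi ^ (-O.mu v) • v) := by
      rw [smul_smul, mul_assoc, ← zpow_add₀ hπ, add_neg_cancel, zpow_zero, mul_one]
    obtain ⟨-, -, h3⟩ := O.red_comb hx hI hp α (β * O.pi ^ (O.mu v))
    rw [← e, hR] at h3
    refine ⟨_, _, h3, fun hb hβ => ?_⟩
    have h4 := ((O.res_ne_zero_iff _).1 hb).2
    rw [O.ord_mul (mul_ne_zero hβ (zpow_ne_zero _ hπ)) (zpow_ne_zero _ hπ),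
      O.ord_mul hβ (zpow_ne_zero _ hπ), O.ord_pi_zpow, O.ord_pi_zpow] at h4
    omega

theorem ZP_hor (hG : ∀ i < r, (G i).IsHomogeneous (d i)) (x : σ → k) (i₀ : σ) (hx0 : x i₀ ≠ 0)
    (m : ℕ) (hm : m < r) (E : Type) [Field E] [Algebra k E] (hE : FF k E (m + 1)) (v : σ → E)
    (α β : E) (hv0 : v i₀ = 0) {i : σ} (hi : v i ≠ 0) (hβ : β ≠ 0)
    (hC : Cone G d r (fun a => algebraMap k E (x a)) v) (ht : td k (kf k v) ≤ m) (O : DV k E)
    {h : E} (hh : (aeval ((α • fun a => algebraMap k E (x a)) + β • v) (G m) = 0 ∧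
      h = (β * v i) ^ d m) ∨ aeval ((α • fun a => algebraMap k E (x a)) + β • v) (G m) ≠ 0)
    (hc : O.ord h ≠ d m * O.mu ((α • fun a => algebraMap k E (x a)) + β • v))
    (hS : On (lev G r m) (O.red ((α • fun a => algebraMap k E (x a)) + β • v))) :
    Cone G d r (fun a => algebraMap k O.K (x a)) (O.red v) ∧ ∃ a b : O.K,
      O.red ((α • fun a => algebraMap k E (x a)) + β • v) =
        (a • fun a => algebraMap k O.K (x a)) + b • O.red v ∧
      (b = 0 ∨ td k (kf k (O.red v)) + 1 ≤ m) := by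
  have hI : O.Int fun a => algebraMap k E (x a) := fun a => O.const _
  have hR : (O.ra fun a => algebraMap k E (x a)) = fun a => algebraMap k O.K (x a) :=
    funext fun a => O.res_algebraMap _
  have hv : v ≠ 0 := fun h => hi (congrFun h i)
  obtain ⟨hC2, a, b, hab, hmu⟩ := ZP_red O hI (i := i₀)
    (by rw [hR]; exact (map_ne_zero _).2 hx0) hv0 hv hC α β
  rw [hR] at hC2 hab
  refine ⟨hC2, a, b, hab, ?_⟩
  by_cases hb : b = 0
  · exact Or.inl hb
  refine Or.inr (le_trans ?_ (Nat.succ_le_succ_iff.1 (Nat.succ_le_succ ht)))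
  rcases hh with ⟨-, rfl⟩ | h0
  · refine O.kf_drop' hE hi ?_
    by_contra hr
    apply hc
    rw [O.ord_pow, O.ord_mul hβ hi, hmu hb hβ, ((O.red_ne_iff v i).1 hr).2]
  · rw [hC.eval_comb hm] at h0
    have h2 := hS (G m) ⟨m, le_rfl, hm, rfl⟩
    rw [hab, hC2.eval_comb hm] at h2
    exact O.kf_drop hE (hG m hm) (right_ne_zero_of_mul h0)
      ((mul_eq_zero.1 h2).resolve_left (pow_ne_zero _ hb))

theorem z_pt (hG : ∀ i < r, (G i).IsHomogeneous (d i)) (hΦ : IsFn 0 (lev G r 0) Φ) (x : σ → k)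
    (i₀ : σ) (hx0 : x i₀ ≠ 0) (m : ℕ) (hm : m ≤ r) (E : Type) [Field E] [Algebra k E]
    (hE : FF k E m) (v : σ → E) (α β : E) (hv0 : v i₀ = 0)
    (hC : Cone G d r (fun a => algebraMap k E (x a)) v)
    (hy : (α • fun a => algebraMap k E (x a)) + β • v ≠ 0)
    (hS : On (lev G r m) ((α • fun a => algebraMap k E (x a)) + β • v))
    (ht : β = 0 ∨ td k (kf k v) + 1 ≤ m) :
    gch G d r Φ m E ((α • fun a => algebraMap k E (x a)) + β • v) =
      Φ k x * gch G d r (deg k σ 0) m E ((α • fun a => algebraMap k E (x a)) + β • v) := by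
  induction m generalizing E α β with
  | zero =>
    obtain rfl : β = 0 := ht.resolve_right (by omega)
    rw [zero_smul, add_zero] at hy ⊢
    have hα : α ≠ 0 := fun h => hy (by rw [h, zero_smul])
    change Φ E _ = Φ k x * Module.finrank k E
    rw [hΦ.pre.scale E hE α _ hα, mul_comm, ← hdeg_ofId]
    exact hΦ.pre.ext k E ff_self hE (Algebra.ofId k E) x
  | succ m ih =>
    have hm' : m < r := hm
    by_cases h0 : β • v = 0
    · rw [h0, add_zero] at hy ⊢
      have hα : α ≠ 0 := fun h => hy (by rw [h, zero_smul])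
      have e1 : kf k (α • fun a => algebraMap k E (x a)) ≤ ⊥ := by
        rw [kf_smul hα]
        exact kf_le_of fun a => IntermediateField.algebraMap_mem _ _
      rw [(isFn_gch hG hΦ hm (n := m + 1) (by omega)).pre.degen E hE _
          (not_nd_of_le hE e1 (by rw [td_bot]; omega)),
        (isFn_gch hG (isFn_deg 0 _) hm (n := m + 1) (by omega)).pre.degen E hE _
          (not_nd_of_le hE e1 (by rw [td_bot]; omega)), mul_zero]
    have hβ : β ≠ 0 := fun h => h0 (by rw [h, zero_smul])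
    have hv : v ≠ 0 := fun h => h0 (by rw [h, smul_zero])
    have ht' : td k (kf k v) ≤ m := by
      have := ht.resolve_left hβ
      omega
    obtain ⟨i, hi⟩ : ∃ i, v i ≠ 0 := Function.ne_iff.1 hv
    set y : σ → E := (α • fun a => algebraMap k E (x a)) + β • v with hy'
    obtain ⟨h, hh0, hh⟩ : ∃ h : E, h ≠ 0 ∧ ((aeval y (G m) = 0 ∧ h = (β * v i) ^ d m) ∨
        (aeval y (G m) ≠ 0 ∧ h = aeval y (G m))) := by
      by_cases e : aeval y (G m) = 0
      · exact ⟨_, pow_ne_zero _ (mul_ne_zero hβ hi), Or.inl ⟨e, rfl⟩⟩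
      · exact ⟨_, e, Or.inr ⟨e, rfl⟩⟩
    have f1 := isFn_gch hG hΦ hm'.le (n := m) (by omega)
    have f2 := isFn_gch hG (isFn_deg 0 _) hm'.le (n := m) (by omega)
    rw [lev_succ _ hm'] at f1 f2
    have g1 := gys_eq (d m) f1 hE hy hS hh0 (hh.imp And.left And.right)
    have g2 := gys_eq (d m) f2 hE hy hS hh0 (hh.imp And.left And.right)
    change gys _ _ _ _ E y = Φ k x * gys _ _ _ _ E y
    rw [g1, g2, mul_finsum]
    refine finsum_congr fun O => ?_
    by_cases hc : O.ord h = d m * O.mu y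
    · rw [hc]
      push_cast
      rw [sub_self, zero_mul, zero_mul, mul_zero]
    have hS2 := ZP_on hG O hm' hS (hh.imp And.left id) hc
    obtain ⟨hC2, a, b, hab, ht2⟩ := ZP_hor hG x i₀ hx0 m hm' E hE v α β hv0 hi hβ hC ht' O
      (by rw [← hy']; exact hh.imp id And.left) hc hS2
    have hne := O.red_ne hy
    rw [← hy'] at hab
    rw [hab] at hS2 hne ⊢
    rw [ih hm'.le O.K (O.ff_K hE) _ a b (O.red_eq_zero hv0) hC2 hne hS2 ht2]
    ring

end Pool.Agent.MP_a9d3bd_q
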